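import Mathlib
import Pool.Agent.W250.RKJ.Stm

set_option autoImplicit false

namespace Pool.Agent.W12.RKJ

open Pool.Agent.W250.RKJ Filter Topology

/-- the absolute values of the terms -/
noncomputable def aa (ν t : ℝ) (k : ℕ) : ℝ :=
  t ^ k / ((k.factorial : ℝ) * ∏ i ∈ Finset.range k, (ν + i))

lemma aa_zero (ν t : ℝ) : aa ν t 0 = 1 := by simp [aa]

lemma prod_one_le {ν : ℝ} (hν : 1 ≤ ν) (k : ℕ) : 1 ≤ ∏ i ∈ Finset.range k, (ν + i) := by
  induction k with
  | zero => simp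
  | succ k ih =>
    rw [Finset.prod_range_succ]
    have : (0:ℝ) ≤ k := Nat.cast_nonneg k
    nlinarith

lemma aa_succ {ν : ℝ} (hν : 1 ≤ ν) (t : ℝ) (k : ℕ) :
    aa ν t (k + 1) = aa ν t k * (t / ((k + 1) * (ν + k))) := by
  unfold aa
  have h1 := prod_one_le hν k
  have h2 : (0:ℝ) < k.factorial := by exact_mod_cast k.factorial_pos
  have h3 : (0:ℝ) ≤ k := Nat.cast_nonneg k
  rw [Finset.prod_range_succ, Nat.factorial_succ, pow_succ]
  push_cast
  have h4 : (∏ i ∈ Finset.range k, (ν + (i:ℝ))) ≠ 0 := by positivity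
  have h5 : ν + (k:ℝ) ≠ 0 := by positivity
  field_simp

lemma aa_nonneg {ν t : ℝ} (hν : 1 ≤ ν) (ht : 0 ≤ t) (k : ℕ) : 0 ≤ aa ν t k := by
  unfold aa
  have h1 := prod_one_le hν k
  positivity

lemma aa_le {ν t : ℝ} (hν : 1 ≤ ν) (ht : 0 ≤ t) (k : ℕ) : aa ν t k ≤ t ^ k / (k.factorial : ℝ) := by
  unfold aa
  have h1 := prod_one_le hν k
  have h2 : (0:ℝ) < k.factorial := by exact_mod_cast k.factorial_pos
  refine div_le_div_of_nonneg_left (by positivity) h2 ?_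
  exact le_mul_of_one_le_right h2.le h1

lemma hasSum_F {ν y : ℝ} (hν : 1 ≤ ν) (hy : 0 ≤ y) :
    HasSum (fun k : ℕ => (-1) ^ k * aa ν (y / 4) k) (F ν y) := by
  have ht : 0 ≤ y / 4 := by positivity
  have hs : Summable (fun k : ℕ => (-1 : ℝ) ^ k * aa ν (y / 4) k) := by
    refine Summable.of_norm_bounded (Real.summable_pow_div_factorial (y / 4)) ?_
    intro k
    rw [norm_mul, norm_pow, norm_neg, norm_one, one_pow, one_mul, Real.norm_eq_abs,
      abs_of_nonneg (aa_nonneg hν ht k)]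
    exact aa_le hν ht k
  have h := hs.hasSum
  have e : ∑' k : ℕ, (-1 : ℝ) ^ k * aa ν (y / 4) k = F ν y := by
    unfold F aa
    refine tsum_congr fun k => ?_
    rw [neg_div, neg_pow (y / 4) k]
    ring
  rwa [e] at h

/-- alternating bounds for the tail -/
lemma alt {ν y : ℝ} (hν : 1 ≤ ν) (hy : 0 ≤ y) (h4 : y / 4 ≤ 2 * (ν + 1)) (k : ℕ) :
    1 - ∑ i ∈ Finset.range (2 * k + 1), (-1) ^ i * aa ν (y / 4) (i + 1) ≤ F ν y ∧
    F ν y ≤ 1 - ∑ i ∈ Finset.range (2 * k), (-1) ^ i * aa ν (y / 4) (i + 1) := by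
  have ht : 0 ≤ y / 4 := by positivity
  have h := hasSum_F hν hy
  have h1 : HasSum (fun k : ℕ => (-1) ^ k * aa ν (y / 4) (k + 1)) (1 - F ν y) := by
    have h2 := (hasSum_nat_add_iff' (f := fun k : ℕ => (-1 : ℝ) ^ k * aa ν (y / 4) k) 1).2 h
    simp only [Finset.range_one, Finset.sum_singleton, pow_zero, one_mul, aa_zero] at h2
    have h3 := h2.neg
    rw [neg_sub] at h3
    refine h3.congr_fun ?_ 
    intro k
    rw [pow_succ]
    ring
  have hanti : Antitone (fun k : ℕ => aa ν (y / 4) (k + 1)) := by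
    refine antitone_nat_of_succ_le fun n => ?_
    rw [aa_succ hν (y / 4) (n + 1)]
    refine mul_le_of_le_one_right (aa_nonneg hν ht _) ?_
    have hn : (0:ℝ) ≤ n := Nat.cast_nonneg n
    push_cast
    rw [div_le_one (by positivity)]
    nlinarith
  have htend := h1.tendsto_sum_nat
  have l1 := hanti.alternating_series_le_tendsto htend k
  have l2 := hanti.tendsto_le_alternating_series htend k
  constructor <;> linarith

lemma aa1 (ν t : ℝ) (hν : 1 ≤ ν) : aa ν t 1 = t / ν := by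
  rw [show (1:ℕ) = 0 + 1 from rfl, aa_succ hν, aa_zero]
  simp

lemma aa2 (ν t : ℝ) (hν : 1 ≤ ν) : aa ν t 2 = t / ν * (t / (2 * (ν + 1))) := by
  rw [show (2:ℕ) = 1 + 1 from rfl, aa_succ hν, aa1 ν t hν]
  norm_num

lemma aa3 (ν t : ℝ) (hν : 1 ≤ ν) :
    aa ν t 3 = t / ν * (t / (2 * (ν + 1))) * (t / (3 * (ν + 2))) := by
  rw [show (3:ℕ) = 2 + 1 from rfl, aa_succ hν, aa2 ν t hν]
  norm_num

lemma aa4 (ν t : ℝ) (hν : 1 ≤ ν) :
    aa ν t 4 = t / ν * (t / (2 * (ν + 1))) * (t / (3 * (ν + 2))) * (t / (4 * (ν + 3))) := by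
  rw [show (4:ℕ) = 3 + 1 from rfl, aa_succ hν, aa3 ν t hν]
  norm_num

lemma F_lower {ν y : ℝ} (hν : 1 ≤ ν) (hy : 0 ≤ y) (h4 : y / 4 ≤ 2 * (ν + 1)) :
    1 - y / 4 / ν + y / 4 / ν * (y / 4 / (2 * (ν + 1))) -
      y / 4 / ν * (y / 4 / (2 * (ν + 1))) * (y / 4 / (3 * (ν + 2))) ≤ F ν y := by
  have h := (alt hν hy h4 1).1
  rw [show 2 * 1 + 1 = 3 from rfl, Finset.sum_range_succ, Finset.sum_range_succ,
    Finset.sum_range_one] at h
  norm_num at h
  rw [aa1 ν _ hν, aa2 ν _ hν, aa3 ν _ hν] at h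
  linarith

lemma F_upper {ν y : ℝ} (hν : 1 ≤ ν) (hy : 0 ≤ y) (h4 : y / 4 ≤ 2 * (ν + 1)) :
    F ν y ≤ 1 - y / 4 / ν + y / 4 / ν * (y / 4 / (2 * (ν + 1))) -
      y / 4 / ν * (y / 4 / (2 * (ν + 1))) * (y / 4 / (3 * (ν + 2))) +
      y / 4 / ν * (y / 4 / (2 * (ν + 1))) * (y / 4 / (3 * (ν + 2))) * (y / 4 / (4 * (ν + 3))) := by
  have h := (alt hν hy h4 2).2
  rw [show 2 * 2 = 4 from rfl, Finset.sum_range_succ, Finset.sum_range_succ,
    Finset.sum_range_succ, Finset.sum_range_one] at h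
  norm_num at h
  rw [aa1 ν _ hν, aa2 ν _ hν, aa3 ν _ hν, aa4 ν _ hν] at h
  linarith

lemma F_le_one {ν y : ℝ} (hν : 1 ≤ ν) (hy : 0 ≤ y) (h4 : y / 4 ≤ 2 * (ν + 1)) :
    F ν y ≤ 1 := by
  have h := (alt hν hy h4 0).2
  simpa using h

/-- the bounds for the threshold from three numbers -/
lemma num2 : SNUM2 := by
  intro z hz
  obtain ⟨hz0, hz1, hz2⟩ := hz
  -- upper bound for z
  have hup : z ≤ 29 / 5 := by
    by_contra hcon
    push Not at hcon
    have h1 := hz2 (29 / 5) (by norm_num) hcon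
    have h2 := F_upper (ν := 1) (y := 29 / 5) le_rfl (by norm_num) (by norm_num)
    norm_num at h2
    linarith
  have hlow : 113 / 20 ≤ z := by
    by_contra hcon
    push Not at hcon
    have h2 := F_lower (ν := 1) (y := z) le_rfl hz0.le (by linarith)
    rw [hz1] at h2
    norm_num at h2
    nlinarith [mul_pos hz0 hz0, mul_pos (mul_pos hz0 hz0) hz0, sq_nonneg (z - 113 / 20)]
  have hF : 429 / 1000 ≤ F 2 z := by
    have h2 := F_lower (ν := 2) (y := z) (by norm_num) hz0.le (by linarith)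
    refine le_trans ?_ h2
    nlinarith [mul_nonneg (sub_nonneg.2 hup) (sub_nonneg.2 hlow), mul_nonneg (mul_nonneg
      (sub_nonneg.2 hup) (sub_nonneg.2 hlow)) (sub_nonneg.2 hlow)]
  have hF1 : F 2 z ≤ 1 := F_le_one (by norm_num) hz0.le (by linarith)
  have hF0 : 0 < F 2 z := by linarith
  have e1 : (1:ℝ) - 3 / 5 / (1 / F 2 z ^ 2) = 1 - 3 / 5 * F 2 z ^ 2 := by
    field_simp
  rw [e1]
  have hx0 : 0 < 1 - 3 / 5 * F 2 z ^ 2 := by nlinarith
  have hlog : Real.log (1 - 3 / 5 * F 2 z ^ 2) ≤ -(116 / 1000) := by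
    rw [Real.log_le_iff_le_exp hx0]
    have h3 : (1 - 29 / 2000 : ℝ) ≤ Real.exp (-(29 / 2000)) := by
      have := Real.add_one_le_exp (-(29 / 2000 : ℝ))
      linarith
    have h4 : (1 - 29 / 2000 : ℝ) ^ 8 ≤ Real.exp (-(116 / 1000)) := by
      have h5 := pow_le_pow_left₀ (by norm_num) h3 8
      rw [← Real.exp_nat_mul] at h5
      refine h5.trans (le_of_eq ?_)
      congr 1
      norm_num
    refine le_trans ?_ h4
    nlinarith
  set ℓ := Real.log (1 - 3 / 5 * F 2 z ^ 2) with hℓ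
  have hexp1 : Real.log (5 / 2) ≤ 928 / 1000 := by
    rw [Real.log_le_iff_le_exp (by norm_num)]
    have := Real.sum_le_exp_of_nonneg (x := (928 / 1000 : ℝ)) (by norm_num) 6
    refine le_trans ?_ this
    norm_num [Finset.sum_range_succ, Nat.factorial]
  have hexp2 : Real.log (8 / z) ≤ 348 / 1000 := by
    rw [Real.log_le_iff_le_exp (by positivity)]
    have := Real.sum_le_exp_of_nonneg (x := (348 / 1000 : ℝ)) (by norm_num) 5
    refine le_trans ?_ this
    norm_num [Finset.sum_range_succ, Nat.factorial]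
    rw [div_le_iff₀ hz0]
    nlinarith
  have hl2 : Real.log (1 - 3 / 5) = -Real.log (5 / 2) := by
    rw [← Real.log_inv]; norm_num
  constructor
  · rw [hl2]
    have e2 : -Real.log (5 / 2) / ℓ = Real.log (5 / 2) / (-ℓ) := by rw [div_neg, neg_div]
    rw [e2]
    have h5 : Real.log (5 / 2) / (-ℓ) ≤ 8 := by
      rw [div_le_iff₀ (by linarith)]
      linarith
    linarith
  · have h5 : Real.log (8 / z) / (-ℓ) ≤ 3 := by
      rw [div_le_iff₀ (by linarith)]
      linarith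
    linarith

end Pool.Agent.W12.RKJ
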