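import Mathlib
import Pool.Agent.W250.RKJ.Stm
import Pool.Agent.W12.RKJ.Num

set_option autoImplicit false

namespace Pool.Agent.W12.RKJ

open Pool.Agent.W250.RKJ Filter Topology

lemma fac_odd (k : ℕ) : (4:ℝ) ^ k * ((k.factorial : ℝ) * ∏ i ∈ Finset.range k, ((3 / 2 : ℝ) + i)) =
    ((2 * k + 1).factorial : ℝ) := by
  induction k with
  | zero => simp
  | succ k ih =>
    rw [Finset.prod_range_succ, Nat.factorial_succ, show 2 * (k + 1) + 1 = (2 * k + 1) + 1 + 1 by ring,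
      Nat.factorial_succ, Nat.factorial_succ (2 * k + 1)]
    push_cast
    rw [← ih, pow_succ]
    ring

/-- `F (3/2) (x^2) * x = sin x` -/
lemma F_sin (x : ℝ) : F (3 / 2) (x ^ 2) * x = Real.sin x := by
  have h := hasSum_F (ν := 3 / 2) (y := x ^ 2) (by norm_num) (sq_nonneg x)
  have h1 := h.mul_right x
  have h2 := Real.hasSum_sin x
  refine h1.unique ?_
  refine h2.congr_fun ?_
  intro k
  unfold aa
  rw [← fac_odd k, div_pow, ← pow_mul, pow_succ x (2 * k)]
  have h3 := prod_one_le (ν := 3 / 2) (by norm_num) k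
  have h4 : (0:ℝ) < k.factorial := by exact_mod_cast k.factorial_pos
  have h5 : (∏ i ∈ Finset.range k, ((3 / 2 : ℝ) + i)) ≠ 0 := by positivity
  field_simp

lemma firstZero_eq {z : ℝ} (hz : FirstZero (3 / 2) z) : z = Real.pi ^ 2 := by
  obtain ⟨hz0, hz1, hz2⟩ := hz
  have hpi := Real.pi_pos
  have h1 : F (3 / 2) (Real.pi ^ 2) = 0 := by
    have := F_sin Real.pi
    rw [Real.sin_pi] at this
    exact (mul_eq_zero.1 this).resolve_right hpi.ne'
  have hle : z ≤ Real.pi ^ 2 := by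
    by_contra hcon
    push Not at hcon
    have := hz2 _ (sq_nonneg _) hcon
    linarith
  have h2 := F_sin (Real.sqrt z)
  rw [Real.sq_sqrt hz0.le, hz1, zero_mul] at h2
  have h3 : 0 < Real.sqrt z := Real.sqrt_pos.2 hz0
  have h4 : Real.sqrt z ≤ Real.pi := Real.sqrt_le_iff.2 ⟨hpi.le, hle⟩
  rcases h4.lt_or_eq with h5 | h5
  · have := Real.sin_pos_of_pos_of_lt_pi h3 h5
    linarith
  · rw [← h5, Real.sq_sqrt hz0.le]

lemma F52 (hF : SF) : F (5 / 2) (Real.pi ^ 2) = 3 / Real.pi ^ 2 := by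
  have hpi := Real.pi_pos
  have hd := (hF (3 / 2) (by norm_num)).2.1 (Real.pi ^ 2)
  have h0 : F (3 / 2) (Real.pi ^ 2) = 0 := by
    have := F_sin Real.pi
    rw [Real.sin_pi] at this
    exact (mul_eq_zero.1 this).resolve_right hpi.ne'
  have h1 : HasDerivAt (fun x : ℝ => x ^ 2) (2 * Real.pi) Real.pi := by
    simpa using hasDerivAt_pow 2 Real.pi
  have h2 : HasDerivAt (fun x : ℝ => F (3 / 2) (x ^ 2))
      (-(F (3 / 2 + 1) (Real.pi ^ 2)) / (4 * (3 / 2)) * (2 * Real.pi)) Real.pi :=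
    HasDerivAt.comp (h := fun x : ℝ => x ^ 2) (h₂ := F (3 / 2)) Real.pi hd h1
  have h3 := h2.mul (hasDerivAt_id Real.pi)
  have h4 : ((fun x : ℝ => F (3 / 2) (x ^ 2)) * id) = Real.sin := by
    funext x
    exact F_sin x
  rw [h4] at h3
  have h5 := h3.unique (Real.hasDerivAt_sin Real.pi)
  rw [Real.cos_pi, h0] at h5
  norm_num at h5
  have h6 : F (5 / 2) (Real.pi ^ 2) * Real.pi ^ 2 = 3 := by nlinarith
  rw [eq_div_iff (by positivity)]
  exact h6

theorem num3 (hF : SF) : SNUM3 := by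
  intro z hz
  rw [firstZero_eq hz, F52 hF]
  have hpi0 := Real.pi_pos
  have hpi := Real.pi_lt_d6
  have hpi' := Real.pi_gt_d6
  have e1 : (1:ℝ) - 7 / 10 / (1 / (3 / Real.pi ^ 2) ^ 2) = 1 - 63 / 10 / Real.pi ^ 4 := by
    field_simp
    ring
  rw [e1]
  have hp2 : Real.pi ^ 2 < 9.8697 := by nlinarith
  have hp2' : 9.8695 < Real.pi ^ 2 := by nlinarith
  have hp4 : Real.pi ^ 4 < 97.412 := by
    have : Real.pi ^ 4 = Real.pi ^ 2 * Real.pi ^ 2 := by ring
    rw [this]
    nlinarith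
  have hp4' : 97.4 < Real.pi ^ 4 := by
    have : Real.pi ^ 4 = Real.pi ^ 2 * Real.pi ^ 2 := by ring
    rw [this]
    nlinarith
  have hx1 : (0.06467 : ℝ) ≤ 63 / 10 / Real.pi ^ 4 := by
    rw [le_div_iff₀ (by positivity)]
    norm_num at hp4 ⊢
    linarith
  have hx2 : 63 / 10 / Real.pi ^ 4 ≤ (0.065 : ℝ) := by
    rw [div_le_iff₀ (by positivity)]
    norm_num at hp4' ⊢
    linarith
  have hx0 : 0 < 1 - 63 / 10 / Real.pi ^ 4 := by linarith
  have hlog : Real.log (1 - 63 / 10 / Real.pi ^ 4) ≤ -0.06467 := by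
    have := Real.log_le_sub_one_of_pos hx0
    linarith
  set ℓ := Real.log (1 - 63 / 10 / Real.pi ^ 4) with hℓ
  have hexp1 : Real.log (10 / 3) ≤ 1.2125 := by
    rw [Real.log_le_iff_le_exp (by norm_num)]
    have := Real.sum_le_exp_of_nonneg (x := (1.2125 : ℝ)) (by norm_num) 8
    refine le_trans ?_ this
    norm_num [Finset.sum_range_succ, Nat.factorial]
  have hexp2 : Real.log (15 / Real.pi ^ 2) ≤ 0.42 := by
    rw [Real.log_le_iff_le_exp (by positivity)]
    have := Real.sum_le_exp_of_nonneg (x := (0.42 : ℝ)) (by norm_num) 6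
    refine le_trans ?_ this
    norm_num [Finset.sum_range_succ, Nat.factorial]
    rw [div_le_iff₀ (by positivity)]
    norm_num at hp2'
    linarith
  have hl2 : Real.log (1 - 7 / 10) = -Real.log (10 / 3) := by
    rw [← Real.log_inv]; norm_num
  constructor
  · rw [hl2]
    have e2 : -Real.log (10 / 3) / ℓ = Real.log (10 / 3) / (-ℓ) := by rw [div_neg, neg_div]
    rw [e2]
    have h5 : Real.log (10 / 3) / (-ℓ) ≤ 75 / 4 := by
      rw [div_le_iff₀ (by linarith)]
      norm_num at hexp1 hlog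
      linarith
    linarith
  · have h5 : Real.log (15 / Real.pi ^ 2) / (-ℓ) ≤ 13 / 2 := by
      rw [div_le_iff₀ (by linarith)]
      norm_num at hexp2 hlog
      linarith
    linarith

end Pool.Agent.W12.RKJ
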