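import Mathlib
import Pool.Agent.W250.RKJ.Stm

set_option autoImplicit false

namespace Pool.Agent.W12.RKJ

open Pool.Agent.W250.RKJ MeasureTheory Metric Set
open scoped Pointwise

/-- the class of test functions -/
def TC {d : ℕ} (Ω : Set (EuclideanSpace ℝ (Fin d))) (u : EuclideanSpace ℝ (Fin d) → ℝ) : Prop :=
  ContDiff ℝ 1 u ∧ HasCompactSupport u ∧ tsupport u ⊆ Ω ∧ u ≠ 0

/-- rescaled function -/
noncomputable def sc {d : ℕ} (s : ℝ) (u : EuclideanSpace ℝ (Fin d) → ℝ) :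
    EuclideanSpace ℝ (Fin d) → ℝ := fun x => u (s⁻¹ • x)

lemma tsupport_sc {d : ℕ} {s : ℝ} (hs : 0 < s) (u : EuclideanSpace ℝ (Fin d) → ℝ) :
    tsupport (sc s u) = s • tsupport u := by
  have h1 : Function.support (sc s u) = s • Function.support u := by
    ext x
    rw [Set.mem_smul_set_iff_inv_smul_mem₀ hs.ne']
    simp [sc, Function.mem_support]
  unfold tsupport
  rw [h1]
  exact (closure_smul₀ s _)

lemma TC_sc {d : ℕ} {s : ℝ} (hs : 0 < s) {Ω : Set (EuclideanSpace ℝ (Fin d))}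
    {u : EuclideanSpace ℝ (Fin d) → ℝ} (hu : TC Ω u) : TC (s • Ω) (sc s u) := by
  obtain ⟨h1, h2, h3, h4⟩ := hu
  refine ⟨h1.comp (contDiff_const_smul _), ?_, ?_, ?_⟩
  · unfold HasCompactSupport
    rw [tsupport_sc hs]
    exact h2.isCompact.smul s
  · rw [tsupport_sc hs]
    exact Set.smul_set_mono h3
  · intro h
    apply h4
    funext x
    have := congrFun h (s • x)
    simp only [sc, smul_smul, inv_mul_cancel₀ hs.ne', one_smul] at this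
    exact this

lemma fderiv_sc {d : ℕ} {s : ℝ} (hs : 0 < s) {u : EuclideanSpace ℝ (Fin d) → ℝ}
    (hu : ContDiff ℝ 1 u) (x : EuclideanSpace ℝ (Fin d)) :
    ‖fderiv ℝ (sc s u) x‖ ^ 2 = (s⁻¹) ^ 2 * ‖fderiv ℝ u (s⁻¹ • x)‖ ^ 2 := by
  have h1 : HasFDerivAt u (fderiv ℝ u (s⁻¹ • x)) (s⁻¹ • x) :=
    (hu.differentiable one_ne_zero _).hasFDerivAt
  have h2 : HasFDerivAt (fun y : EuclideanSpace ℝ (Fin d) => s⁻¹ • y)
      (s⁻¹ • ContinuousLinearMap.id ℝ (EuclideanSpace ℝ (Fin d))) x :=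
    (hasFDerivAt_id x).const_smul s⁻¹
  have h3 := h1.comp x h2
  have h4 : fderiv ℝ (sc s u) x = s⁻¹ • fderiv ℝ u (s⁻¹ • x) := by
    have : fderiv ℝ (sc s u) x = (fderiv ℝ u (s⁻¹ • x)).comp
      (s⁻¹ • ContinuousLinearMap.id ℝ (EuclideanSpace ℝ (Fin d))) := h3.fderiv
    rw [this]
    ext v
    simp
  rw [h4, norm_smul, mul_pow, Real.norm_eq_abs, sq_abs]

lemma int_sc {d : ℕ} {s : ℝ} (hs : 0 < s) (f : EuclideanSpace ℝ (Fin d) → ℝ) :
    ∫ x, f (s⁻¹ • x) = s ^ d * ∫ x, f x := by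
  have h := Measure.integral_comp_inv_smul (μ := (volume : Measure (EuclideanSpace ℝ (Fin d)))) f s
  rw [h, finrank_euclideanSpace, Fintype.card_fin, abs_of_pos (by positivity), smul_eq_mul]

lemma I1_sc {d : ℕ} {s : ℝ} (hs : 0 < s) {u : EuclideanSpace ℝ (Fin d) → ℝ}
    (hu : ContDiff ℝ 1 u) : ∫ x, ‖fderiv ℝ (sc s u) x‖ ^ 2 =
      s ^ d * (s⁻¹) ^ 2 * ∫ x, ‖fderiv ℝ u x‖ ^ 2 := by
  simp_rw [fderiv_sc hs hu]
  rw [integral_const_mul, int_sc hs (fun x => ‖fderiv ℝ u x‖ ^ 2)]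
  ring

lemma lamset_sub {d : ℕ} {s : ℝ} (hs : 0 < s) (Ω : Set (EuclideanSpace ℝ (Fin d))) {r : ℝ}
    (hr : ∃ u : EuclideanSpace ℝ (Fin d) → ℝ, ContDiff ℝ 1 u ∧ HasCompactSupport u ∧
    tsupport u ⊆ Ω ∧ u ≠ 0 ∧ r = (∫ x, ‖fderiv ℝ u x‖ ^ 2) / (∫ x, u x ^ 2)) :
    ∃ u : EuclideanSpace ℝ (Fin d) → ℝ, ContDiff ℝ 1 u ∧ HasCompactSupport u ∧
    tsupport u ⊆ s • Ω ∧ u ≠ 0 ∧
      (s⁻¹) ^ 2 * r = (∫ x, ‖fderiv ℝ u x‖ ^ 2) / (∫ x, u x ^ 2) := by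
  obtain ⟨u, h1, h2, h3, h4, rfl⟩ := hr
  obtain ⟨k1, k2, k3, k4⟩ := TC_sc hs (u := u) (Ω := Ω) ⟨h1, h2, h3, h4⟩
  refine ⟨sc s u, k1, k2, k3, k4, ?_⟩
  rw [I1_sc hs h1]
  have e : ∫ x, sc s u x ^ 2 = s ^ d * ∫ x, u x ^ 2 := int_sc hs (fun x => u x ^ 2)
  rw [e]
  have hsd : s ^ d ≠ 0 := by positivity
  rw [mul_assoc, mul_div_mul_left _ _ hsd, mul_div_assoc]

lemma torset_sub {d : ℕ} {s : ℝ} (hs : 0 < s) (Ω : Set (EuclideanSpace ℝ (Fin d))) {r : ℝ}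
    (hr : ∃ u : EuclideanSpace ℝ (Fin d) → ℝ, ContDiff ℝ 1 u ∧ HasCompactSupport u ∧
    tsupport u ⊆ Ω ∧ u ≠ 0 ∧ r = (∫ x, u x) ^ 2 / (∫ x, ‖fderiv ℝ u x‖ ^ 2)) :
    ∃ u : EuclideanSpace ℝ (Fin d) → ℝ, ContDiff ℝ 1 u ∧ HasCompactSupport u ∧
    tsupport u ⊆ s • Ω ∧ u ≠ 0 ∧
      s ^ (d + 2) * r = (∫ x, u x) ^ 2 / (∫ x, ‖fderiv ℝ u x‖ ^ 2) := by
  obtain ⟨u, h1, h2, h3, h4, rfl⟩ := hr
  obtain ⟨k1, k2, k3, k4⟩ := TC_sc hs (u := u) (Ω := Ω) ⟨h1, h2, h3, h4⟩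
  refine ⟨sc s u, k1, k2, k3, k4, ?_⟩
  rw [I1_sc hs h1]
  have e : ∫ x, sc s u x = s ^ d * ∫ x, u x := int_sc hs u
  rw [e]
  have hsd : s ^ d ≠ 0 := by positivity
  set A := ∫ x, u x
  set B := ∫ x, ‖fderiv ℝ u x‖ ^ 2
  have e1 : (s ^ d * A) ^ 2 / (s ^ d * s⁻¹ ^ 2 * B) = (s ^ d * A ^ 2) / (s⁻¹ ^ 2 * B) := by
    rw [mul_assoc (s ^ d), show (s ^ d * A) ^ 2 = s ^ d * (s ^ d * A ^ 2) by ring,
      mul_div_mul_left _ _ hsd]
  rw [e1, mul_div_mul_comm, inv_pow, div_inv_eq_mul, pow_add]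

theorem scale : SSCALE := by
  intro d s hs Ω
  have hs' : 0 < s⁻¹ := inv_pos.2 hs
  have hinv : s⁻¹ • (s • Ω) = Ω := by
    rw [smul_smul, inv_mul_cancel₀ hs.ne', one_smul]
  constructor
  · unfold lam
    have : {r : ℝ | ∃ u : EuclideanSpace ℝ (Fin d) → ℝ, ContDiff ℝ 1 u ∧ HasCompactSupport u ∧
      tsupport u ⊆ s • Ω ∧ u ≠ 0 ∧ r = (∫ x, ‖fderiv ℝ u x‖ ^ 2) / (∫ x, u x ^ 2)} =
      ((s⁻¹) ^ 2) • {r : ℝ | ∃ u : EuclideanSpace ℝ (Fin d) → ℝ, ContDiff ℝ 1 u ∧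
      HasCompactSupport u ∧
      tsupport u ⊆ Ω ∧ u ≠ 0 ∧ r = (∫ x, ‖fderiv ℝ u x‖ ^ 2) / (∫ x, u x ^ 2)} := by
      ext r
      rw [Set.mem_smul_set]
      constructor
      · intro hr
        have h := lamset_sub hs' (s • Ω) hr
        rw [hinv] at h
        refine ⟨_, h, ?_⟩
        rw [smul_eq_mul, inv_inv, ← mul_assoc]
        have : s⁻¹ ^ 2 * s ^ 2 = 1 := by
          rw [← mul_pow, inv_mul_cancel₀ hs.ne', one_pow]
        rw [this, one_mul]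
      · rintro ⟨r', hr', rfl⟩
        exact lamset_sub hs Ω hr'
    rw [this, Real.sInf_smul_of_nonneg (by positivity), smul_eq_mul, inv_pow]
    rw [div_eq_mul_inv, mul_comm]
  · unfold tor
    have : {r : ℝ | ∃ u : EuclideanSpace ℝ (Fin d) → ℝ, ContDiff ℝ 1 u ∧ HasCompactSupport u ∧
      tsupport u ⊆ s • Ω ∧ u ≠ 0 ∧ r = (∫ x, u x) ^ 2 / (∫ x, ‖fderiv ℝ u x‖ ^ 2)} =
      (s ^ (d + 2)) • {r : ℝ | ∃ u : EuclideanSpace ℝ (Fin d) → ℝ, ContDiff ℝ 1 u ∧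
      HasCompactSupport u ∧
      tsupport u ⊆ Ω ∧ u ≠ 0 ∧ r = (∫ x, u x) ^ 2 / (∫ x, ‖fderiv ℝ u x‖ ^ 2)} := by
      ext r
      rw [Set.mem_smul_set]
      constructor
      · intro hr
        have h := torset_sub hs' (s • Ω) hr
        rw [hinv] at h
        refine ⟨_, h, ?_⟩
        rw [smul_eq_mul, ← mul_assoc]
        have : s ^ (d + 2) * s⁻¹ ^ (d + 2) = 1 := by
          rw [← mul_pow, mul_inv_cancel₀ hs.ne', one_pow]
        rw [this, one_mul]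
      · rintro ⟨r', hr', rfl⟩
        exact torset_sub hs Ω hr'
    rw [this, Real.sSup_smul_of_nonneg (by positivity), smul_eq_mul]

lemma cs_aux {d : ℕ} {Ω : Set (EuclideanSpace ℝ (Fin d))} (hfin : volume Ω < ⊤)
    (hV : 0 < (volume Ω).toReal) {u : EuclideanSpace ℝ (Fin d) → ℝ} (hint1 : Integrable u)
    (hint2 : Integrable (fun x => u x ^ 2)) (hz : ∀ x, x ∉ Ω → u x = 0) :
    (∫ x, u x) ^ 2 ≤ (volume Ω).toReal * ∫ x, u x ^ 2 := by
  have e1 : ∫ x in Ω, u x = ∫ x, u x := setIntegral_eq_integral_of_forall_compl_eq_zero hz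
  have e2 : ∫ x in Ω, u x ^ 2 = ∫ x, u x ^ 2 := setIntegral_eq_integral_of_forall_compl_eq_zero
    (fun x hx => by rw [hz x hx]; norm_num)
  set A := ∫ x, u x with hA
  set I2 := ∫ x, u x ^ 2 with hI2
  set c := A / (volume Ω).toReal with hc
  have hcint : IntegrableOn (fun _ : EuclideanSpace ℝ (Fin d) => c ^ 2) Ω :=
    integrableOn_const hfin.ne
  have e3 : 0 ≤ ∫ x in Ω, (u x - c) ^ 2 := integral_nonneg fun _ => sq_nonneg _
  have e4 : ∫ x in Ω, (u x - c) ^ 2 = I2 - 2 * c * A + c ^ 2 * (volume Ω).toReal := by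
    have e5 : ∀ x, (u x - c) ^ 2 = u x ^ 2 - 2 * c * u x + c ^ 2 := fun x => by ring
    simp_rw [e5]
    have i1 : IntegrableOn (fun x => u x ^ 2) Ω := hint2.integrableOn
    have i2 : IntegrableOn (fun x => 2 * c * u x) Ω := (hint1.const_mul (2 * c)).integrableOn
    have i3 : IntegrableOn (fun x => u x ^ 2 - 2 * c * u x) Ω := i1.sub i2
    rw [integral_add i3 hcint, integral_sub i1 i2, integral_const_mul,
      e1, e2, setIntegral_const, smul_eq_mul, measureReal_def]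
    ring
  rw [e4] at e3
  have e6 : c * (volume Ω).toReal = A := by
    rw [hc]; field_simp
  have e7 : c ^ 2 * (volume Ω).toReal = c * A := by rw [← e6]; ring
  rw [e7] at e3
  have e8 : A ^ 2 = c * A * (volume Ω).toReal := by
    calc A ^ 2 = A * A := sq A
      _ = (c * (volume Ω).toReal) * A := by rw [e6]
      _ = _ := by ring
  rw [e8]
  have e9 : c * A ≤ I2 := by linarith
  calc c * A * (volume Ω).toReal ≤ I2 * (volume Ω).toReal :=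
        mul_le_mul_of_nonneg_right e9 hV.le
    _ = _ := mul_comm _ _

lemma sq_int_pos {d : ℕ} {u : EuclideanSpace ℝ (Fin d) → ℝ} (h1 : Continuous u)
    (h2 : HasCompactSupport u) (h4 : u ≠ 0) :
    Integrable (fun x => u x ^ 2) ∧ 0 < ∫ x, u x ^ 2 := by
  have h3 : HasCompactSupport (fun x => u x ^ 2) :=
    h2.comp_left (g := fun t : ℝ => t ^ 2) (by simp)
  obtain ⟨x0, hx0⟩ : ∃ x0, u x0 ≠ 0 := by
    by_contra hcon
    push Not at hcon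
    exact h4 (funext hcon)
  refine ⟨(h1.pow 2).integrable_of_hasCompactSupport h3, ?_⟩
  refine (h1.pow 2).integral_pos_of_hasCompactSupport_nonneg_nonzero
    h3 (fun x => sq_nonneg _) (x := x0) ?_
  exact pow_ne_zero 2 hx0

lemma lam_le {d : ℕ} {Ω : Set (EuclideanSpace ℝ (Fin d))} {u : EuclideanSpace ℝ (Fin d) → ℝ}
    (h1 : ContDiff ℝ 1 u) (h2 : HasCompactSupport u) (h3 : tsupport u ⊆ Ω) (h4 : u ≠ 0) :
    lam Ω ≤ (∫ x, ‖fderiv ℝ u x‖ ^ 2) / (∫ x, u x ^ 2) := by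
  unfold lam
  refine csInf_le ⟨0, ?_⟩ ⟨u, h1, h2, h3, h4, rfl⟩
  rintro r ⟨v, -, -, -, -, rfl⟩
  exact div_nonneg (integral_nonneg fun _ => sq_nonneg _)
    (integral_nonneg fun _ => sq_nonneg _)

lemma lam_nonneg {d : ℕ} (Ω : Set (EuclideanSpace ℝ (Fin d))) : 0 ≤ lam Ω := by
  unfold lam
  refine Real.sInf_nonneg ?_
  rintro r ⟨u, -, -, -, -, rfl⟩
  exact div_nonneg (integral_nonneg fun _ => sq_nonneg _) (integral_nonneg fun _ => sq_nonneg _)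

theorem polya : SPOLYA := by
  intro d hd Ω hΩ hne hfin
  have hlam0 : 0 ≤ lam Ω := lam_nonneg Ω
  refine ⟨hlam0, ?_⟩
  have hV : 0 < (volume Ω).toReal := ENNReal.toReal_pos (hΩ.measure_pos volume hne).ne' hfin.ne
  rcases hlam0.eq_or_lt with h0 | h0
  · rw [← h0, zero_mul]
    exact hV.le
  · have key : tor Ω ≤ (volume Ω).toReal / lam Ω := by
      unfold tor
      refine Real.sSup_le ?_ (by positivity)
      rintro r ⟨u, h1, h2, h3, h4, rfl⟩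
      rw [le_div_iff₀ h0]
      have hint1 : Integrable u := h1.continuous.integrable_of_hasCompactSupport h2
      obtain ⟨hint2, hI2p⟩ := sq_int_pos h1.continuous h2 h4
      have hI1n : 0 ≤ ∫ x, ‖fderiv ℝ u x‖ ^ 2 := integral_nonneg fun _ => sq_nonneg _
      have hle := lam_le h1 h2 h3 h4
      have hCS := cs_aux hfin hV hint1 hint2 (fun x hx => by
          by_contra hcon
          exact hx (h3 (subset_tsupport u hcon)))
      set I1 := ∫ x, ‖fderiv ℝ u x‖ ^ 2 with hI1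
      set I2 := ∫ x, u x ^ 2 with hI2
      rcases hI1n.eq_or_lt with h5 | h5
      · rw [← h5, div_zero, zero_mul]
        exact hV.le
      · calc (∫ x, u x) ^ 2 / I1 * lam Ω ≤ (∫ x, u x) ^ 2 / I1 * (I1 / I2) :=
              mul_le_mul_of_nonneg_left hle (by positivity)
          _ = (∫ x, u x) ^ 2 / I2 := by field_simp
          _ ≤ (volume Ω).toReal := by
            rw [div_le_iff₀ hI2p]
            exact hCS
    rw [le_div_iff₀ h0] at key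
    rw [mul_comm]
    exact key

end Pool.Agent.W12.RKJ
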